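import Pool.Agent.H25.EXC.ENY

/-!
# Row ENX of the board `exc`: recursion of scales
-/

set_option autoImplicit false

namespace Pool.EXC

open Finset Pool.Agent.H98.ABCR Pool.SHA Pool.ABY Pool.VIO

namespace ENXaux

open ENYaux

theorem om_RR (v : ℕ × ℕ) : om (RR v) = om (nn v) := by
  unfold RR om rad
  rw [Nat.primeFactors_prod fun p hp => Nat.prime_of_mem_primeFactors hp]

theorem RR_pos (v : ℕ × ℕ) : 0 < RR v := by
  unfold RR rad
  exact Finset.prod_pos fun p hp => (Nat.prime_of_mem_primeFactors hp).pos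

/-- `C ^ (ω + 1)` is less than a small power of `X` -/
theorem small (hO : Pool.FEX.S_OMB) (C η : ℝ) (hC : 1 ≤ C) (hη : 0 < η) :
    ∃ X0 : ℝ, 3 ≤ X0 ∧ ∀ X : ℝ, X0 ≤ X → ∀ v : ℕ × ℕ, (RR v : ℝ) ≤ X →
      C ^ (om (nn v) + 1) ≤ X ^ η := by
  obtain ⟨C', hC', hB⟩ := hO C (η / 2) hC (by linarith)
  refine ⟨max 3 (C' ^ (2 / η)), le_max_left _ _, ?_⟩
  intro X hX v hv
  have h1 : 3 ≤ X := le_trans (le_max_left _ _) hX
  have h2 : C' ^ (2 / η) ≤ X := le_trans (le_max_right _ _) hX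
  have h3 : C' ≤ X ^ (η / 2) := by
    have h4 : (C' ^ (2 / η)) ^ (η / 2) ≤ X ^ (η / 2) :=
      Real.rpow_le_rpow (by positivity) h2 (by linarith)
    rw [← Real.rpow_mul (by linarith)] at h4
    have h5 : 2 / η * (η / 2) = 1 := by field_simp
    rwa [h5, Real.rpow_one] at h4
  have h4 := hB (RR v) (RR_pos v)
  rw [om_RR] at h4
  have h5 : (RR v : ℝ) ^ (η / 2) ≤ X ^ (η / 2) :=
    Real.rpow_le_rpow (Nat.cast_nonneg _) hv (by linarith)
  have h6 : X ^ (η / 2) * X ^ (η / 2) = X ^ η := by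
    rw [← Real.rpow_add (by linarith)]
    ring_nf
  calc C ^ (om (nn v) + 1) ≤ C' * (RR v : ℝ) ^ (η / 2) := h4
    _ ≤ X ^ (η / 2) * X ^ (η / 2) :=
        mul_le_mul h3 h5 (by positivity) (by positivity)
    _ = X ^ η := h6

open Classical in
/-- primes of `n` with exponent strictly between `a` and `b` -/
noncomputable def mid (a b : ℝ) (n : ℕ) : Finset ℕ :=
  n.primeFactors.filter (fun p => a < (n.factorization p : ℝ) ∧ (n.factorization p : ℝ) < b)

open Classical in
/-- primes of `n` with exponent larger than `d` -/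
noncomputable def big (d : ℝ) (n : ℕ) : Finset ℕ :=
  n.primeFactors.filter (fun p => d < (n.factorization p : ℝ))

lemma mid_sum {L : ℕ → ℝ} (hL : Antitone L) {g : ℝ} (hg : 0 ≤ g) (I n : ℕ) :
    ∑ m ∈ range I, ∑ p ∈ mid (L (m + 1) * g) (L m * g) n, Real.log p ≤ Real.log (rad n) := by
  have hlt : ∀ m m' p, m < m' → p ∈ mid (L (m + 1) * g) (L m * g) n →
      p ∉ mid (L (m' + 1) * g) (L m' * g) n := by
    intro m m' p h hp hp'
    unfold mid at hp hp'
    have h1 := (mem_filter.1 hp).2.1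
    have h2 := (mem_filter.1 hp').2.2
    have h3 : L m' * g ≤ L (m + 1) * g := mul_le_mul_of_nonneg_right (hL h) hg
    linarith
  rw [← Finset.sum_biUnion, log_rad]
  · refine Finset.sum_le_sum_of_subset_of_nonneg ?_ fun p _ _ => Real.log_natCast_nonneg p
    rw [Finset.biUnion_subset]
    intro m _
    exact filter_subset _ _
  · intro m _ m' _ hne
    rw [Function.onFun, Finset.disjoint_left]
    intro p hp hp'
    rcases lt_or_gt_of_ne hne with h | h
    · exact hlt m m' p h hp hp'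
    · exact hlt m' m p h hp' hp

lemma big_sum {n : ℕ} (hn : 0 < n) {d : ℝ} (hd : 0 < d) :
    ∑ p ∈ big d n, Real.log p ≤ Real.log n / d := by
  rw [le_div_iff₀ hd, Finset.sum_mul, log_eq hn]
  calc ∑ p ∈ big d n, Real.log p * d
      ≤ ∑ p ∈ big d n, (n.factorization p : ℝ) * Real.log p := by
        refine Finset.sum_le_sum fun p hp => ?_
        unfold big at hp
        have h1 := (mem_filter.1 hp).2
        have h2 : 0 ≤ Real.log (p : ℝ) := Real.log_natCast_nonneg p
        nlinarith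
    _ ≤ _ := Finset.sum_le_sum_of_subset_of_nonneg (filter_subset _ _) fun p _ _ =>
        mul_nonneg (Nat.cast_nonneg _) (Real.log_natCast_nonneg p)

lemma prod_le {H : Finset ℕ} (hH : ∀ p ∈ H, p.Prime) {X a : ℝ} (hX : 0 < X)
    (h : ∑ p ∈ H, Real.log p ≤ a * Real.log X) : ((∏ p ∈ H, p : ℕ) : ℝ) ≤ X ^ a := by
  have h0 : (0 : ℝ) < ((∏ p ∈ H, p : ℕ) : ℝ) := by
    exact_mod_cast Finset.prod_pos fun p hp => (hH p hp).pos
  rw [← Real.exp_log h0, Real.rpow_def_of_pos hX]
  refine Real.exp_le_exp.2 ?_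
  push_cast
  rw [Real.log_prod]
  · linarith
  · intro p hp
    have := (hH p hp).pos
    positivity

lemma sum_cell {S K : Finset ℕ} (hS : S ⊆ K) {f : ℕ → ℝ} {b : ℝ} (hb : 0 ≤ b)
    (h : ∀ p ∈ S, f p * (K.card + 1) ≤ b) : ∑ p ∈ S, f p ≤ b := by
  have h0 : (0 : ℝ) < (K.card : ℝ) + 1 := by positivity
  have h1 : (∑ p ∈ S, f p) * (K.card + 1) ≤ b * (K.card + 1) := by
    rw [Finset.sum_mul]
    calc ∑ p ∈ S, f p * (K.card + 1) ≤ ∑ p ∈ S, b := Finset.sum_le_sum h
      _ = S.card * b := by rw [Finset.sum_const, nsmul_eq_mul]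
      _ ≤ ((K.card : ℝ) + 1) * b := by
          refine mul_le_mul_of_nonneg_right ?_ hb
          have : S.card ≤ K.card + 1 := (Finset.card_le_card hS).trans (Nat.le_succ _)
          exact_mod_cast this
      _ = b * (K.card + 1) := by ring
  exact le_of_mul_le_mul_right h1 h0

end ENXaux

open ENYaux ENXaux in
/-- **ENX.** -/
theorem enx_thm (hENY : S_ENY) (hPAT : S_PAT) (hO : Pool.FEX.S_OMB) : S_ENX := by
  intro c ε hc hc1 hε hε1
  obtain ⟨C0, hC0⟩ : ∃ C0 : ℝ, C0 = 16 / ε := ⟨_, rfl⟩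
  have hC01 : 1 ≤ C0 := by rw [hC0, le_div_iff₀ hε]; linarith
  have hY := hENY (c / 2) (ε / 8) C0 (by positivity) (by linarith) (by positivity) (by linarith)
    hC01
  choose! lf κf Xf hf using hY
  obtain ⟨L, hL0, hLs⟩ : ∃ L : ℕ → ℝ, L 0 = 1 ∧ ∀ m, L (m + 1) = lf (L m) :=
    ⟨fun m => lf^[m] 1, rfl, fun m => Function.iterate_succ_apply' lf m 1⟩
  have hLp : ∀ m, 0 < L m ∧ L m ≤ 1 := by
    intro m
    induction m with
    | zero => rw [hL0]; norm_num
    | succ m ih =>
      obtain ⟨h1, h2, _⟩ := hf (L m) ih.1 ih.2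
      rw [hLs]
      exact ⟨h1, by linarith [ih.2]⟩
  have hLa : Antitone L := antitone_nat_of_succ_le fun m => by
    rw [hLs]
    exact (hf (L m) (hLp m).1 (hLp m).2).2.1.le
  obtain ⟨I, hI⟩ := exists_nat_ge (32 / ε)
  have hI0 : (0 : ℝ) < I := lt_of_lt_of_le (by positivity) hI
  obtain ⟨δ, hδ⟩ : ∃ δ : ℝ, δ = min (c / 2) (L I) := ⟨_, rfl⟩
  have hδ0 : 0 < δ := by rw [hδ]; exact lt_min (by positivity) (hLp I).1
  have hδc : δ ≤ c / 2 := by rw [hδ]; exact min_le_left _ _
  have hδL : δ ≤ L I := by rw [hδ]; exact min_le_right _ _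
  obtain ⟨C, hC, hpat⟩ := hPAT δ hδ0
  obtain ⟨X1, hX1, hsm⟩ := small hO C (ε / 32) hC (by positivity)
  have hκp : ∀ m, 1 ≤ κf (L m) ∧ 3 ≤ Xf (L m) := fun m => by
    obtain ⟨_, _, h3, h4, _⟩ := hf (L m) (hLp m).1 (hLp m).2
    exact ⟨h3, h4⟩
  refine ⟨1 + ∑ m ∈ range I, κf (L m),
    max (max X1 (((4 * I : ℝ)) ^ (8 / ε))) (3 + ∑ m ∈ range I, Xf (L m)), ?_, ?_, ?_⟩
  · have : 0 ≤ ∑ m ∈ range I, κf (L m) :=
      Finset.sum_nonneg fun m _ => by linarith [(hκp m).1]
    linarith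
  · exact le_max_of_le_left (le_max_of_le_left hX1)
  intro X h0 Z T i F hX hκ hZ hF
  have hXX1 : X1 ≤ X := (le_max_left _ _).trans ((le_max_left _ _).trans hX)
  have hXI : ((4 * I : ℝ)) ^ (8 / ε) ≤ X := (le_max_right _ _).trans ((le_max_left _ _).trans hX)
  have hX3 : 3 ≤ X := hX1.trans hXX1
  have hX0 : 0 < X := by linarith
  have hXone : 1 ≤ X := by linarith
  have hl : 0 < Real.log X := Real.log_pos (by linarith)
  have hXm : ∀ m < I, Xf (L m) ≤ X := by
    intro m hm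
    have h1 := Finset.single_le_sum (f := fun m => Xf (L m))
      (fun m _ => by linarith [(hκp m).2]) (mem_range.2 hm)
    have h2 : 3 + ∑ m ∈ range I, Xf (L m) ≤ X := (le_max_right _ _).trans hX
    linarith
  have hκm : ∀ m < I, κf (L m) * Real.log X ≤ h0 := by
    intro m hm
    have h1 := Finset.single_le_sum (f := fun m => κf (L m))
      (fun m _ => by linarith [(hκp m).1]) (mem_range.2 hm)
    exact (mul_le_mul_of_nonneg_right (by linarith) hl.le).trans hκ
  have hh0 : 0 < h0 := by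
    refine lt_of_lt_of_le ?_ hκ
    have : 0 ≤ ∑ m ∈ range I, κf (L m) :=
      Finset.sum_nonneg fun m _ => by linarith [(hκp m).1]
    positivity
  obtain ⟨g, hg⟩ : ∃ g : ℝ, g = h0 / Real.log X := ⟨_, rfl⟩
  have hg0 : 0 < g := by rw [hg]; positivity
  have hgX : g * Real.log X = h0 := by rw [hg]; exact div_mul_cancel₀ _ hl.ne'
  obtain ⟨j, k, hij, hik, hjk, hset, hs2⟩ := two_of i
  have hlogrX : ∀ v ∈ F, ∀ s, Real.log (rad (coord v s)) ≤ Real.log X := by
    intro v hv s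
    apply Real.log_le_log
    · exact_mod_cast rad_pos _
    · exact le_trans (by exact_mod_cast rad_coord_le (hF v hv).1 s) (hF v hv).2.1
  -- the scale of a triple
  have hsc : ∀ v ∈ F, ∃ m < I, ∀ s, s ≠ i →
      ∑ p ∈ mid (L (m + 1) * g) (L m * g) (coord v s), Real.log p ≤ ε / 16 * Real.log X := by
    intro v hv
    have h1 : ∑ m ∈ range I, (∑ p ∈ mid (L (m + 1) * g) (L m * g) (coord v j), Real.log p +
        ∑ p ∈ mid (L (m + 1) * g) (L m * g) (coord v k), Real.log p) ≤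
        ∑ _m ∈ range I, 2 * Real.log X / I := by
      rw [Finset.sum_add_distrib, Finset.sum_const, card_range, nsmul_eq_mul,
        mul_div_cancel₀ _ hI0.ne']
      have h2 := mid_sum hLa hg0.le I (coord v j)
      have h3 := mid_sum hLa hg0.le I (coord v k)
      have h4 := hlogrX v hv j
      have h5 := hlogrX v hv k
      linarith
    have hne : (range I).Nonempty := by
      rw [Finset.nonempty_range_iff]
      rintro rfl
      simp at hI0
    obtain ⟨m, hm, h2⟩ := Finset.exists_le_of_sum_le hne h1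
    refine ⟨m, mem_range.1 hm, ?_⟩
    have h3 : 2 * Real.log X / I ≤ ε / 16 * Real.log X := by
      rw [div_le_iff₀ hI0]
      rw [div_le_iff₀ hε] at hI
      nlinarith
    have h4 : ∀ s, 0 ≤ ∑ p ∈ mid (L (m + 1) * g) (L m * g) (coord v s), Real.log (p : ℝ) :=
      fun s => Finset.sum_nonneg fun p _ => Real.log_natCast_nonneg p
    intro s hs
    rcases hs2 s hs with rfl | rfl
    · linarith [h4 k]
    · linarith [h4 j]
  choose! mm hmI hms using hsc
  obtain ⟨H, hH⟩ : ∃ H : ℕ × ℕ → Fin 3 → Finset ℕ, ∀ v s,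
      H v s = mid (L (mm v + 1) * g) (L (mm v) * g) (coord v s) ∪ big (C0 * g) (coord v s) :=
    ⟨_, fun v s => rfl⟩
  have hHsub : ∀ v s, H v s ⊆ (coord v s).primeFactors := by
    intro v s
    rw [hH]
    exact union_subset (filter_subset _ _) (filter_subset _ _)
  have hHpr : ∀ v s, ∀ p ∈ H v s, p.Prime := fun v s p hp =>
    Nat.prime_of_mem_primeFactors (hHsub v s hp)
  have hcoord : ∀ v ∈ F, ∀ s, Real.log (coord v s) ≤ 2 * h0 := by
    intro v hv s
    calc Real.log (coord v s) ≤ hh v := by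
          unfold hh
          apply Real.log_le_log
          · exact_mod_cast coord_pos (hF v hv).1 s
          · exact_mod_cast coord_le v s
      _ ≤ 2 * h0 := (hF v hv).2.2.2.1
  have hHprod : ∀ v ∈ F, ∀ s, s ≠ i → ((∏ p ∈ H v s, p : ℕ) : ℝ) ≤ X ^ (3 * ε / 16) := by
    intro v hv s hs
    refine prod_le (hHpr v s) hX0 ?_
    have h1 : ∑ p ∈ H v s, Real.log p ≤
        ∑ p ∈ mid (L (mm v + 1) * g) (L (mm v) * g) (coord v s), Real.log p +
        ∑ p ∈ big (C0 * g) (coord v s), Real.log (p : ℝ) := by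
      rw [hH, ← Finset.sum_union_inter]
      have : 0 ≤ ∑ p ∈ mid (L (mm v + 1) * g) (L (mm v) * g) (coord v s) ∩
          big (C0 * g) (coord v s), Real.log (p : ℝ) :=
        Finset.sum_nonneg fun p _ => Real.log_natCast_nonneg p
      linarith
    have h2 := hms v hv s hs
    have h3 := big_sum (coord_pos (hF v hv).1 s) (d := C0 * g) (by positivity)
    have h4 : Real.log (coord v s) / (C0 * g) ≤ ε / 8 * Real.log X := by
      rw [div_le_iff₀ (by positivity)]
      have e : ε / 8 * Real.log X * (C0 * g) = ε * C0 / 8 * (g * Real.log X) := by ring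
      rw [e, hgX, hC0, mul_div_cancel₀ _ hε.ne']
      have := hcoord v hv s
      linarith
    linarith
  obtain ⟨N, hN⟩ : ∃ N : ℕ, N = ⌊X ^ (3 * ε / 16)⌋₊ + 1 := ⟨_, rfl⟩
  have hmap : ∀ v ∈ F, (mm v, ((∏ p ∈ H v j, p : ℕ), (∏ p ∈ H v k, p : ℕ))) ∈
      (range I) ×ˢ ((range N) ×ˢ (range N)) := by
    intro v hv
    rw [mem_product, mem_product, mem_range, mem_range, mem_range, hN]
    exact ⟨hmI v hv, Nat.lt_succ_of_le (Nat.le_floor (hHprod v hv j hij)),
      Nat.lt_succ_of_le (Nat.le_floor (hHprod v hv k hik))⟩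
  obtain ⟨M2, hM2⟩ : ∃ M2 : ℝ, M2 = ((∏ t ∈ T, t : ℕ) : ℝ) * X ^ (ε / 8) * Real.sqrt Z :=
    ⟨_, rfl⟩
  have hM20 : 0 ≤ M2 := by rw [hM2]; positivity
  obtain ⟨M, hM⟩ : ∃ M : ℝ, M = M2 * X ^ (ε / 32) := ⟨_, rfl⟩
  have hM0 : 0 ≤ M := by rw [hM]; positivity
  -- one scale, known primes fixed
  have main : ∀ (m a1 a2 : ℕ), ((F.filter (fun v => (mm v, ((∏ p ∈ H v j, p : ℕ),
      (∏ p ∈ H v k, p : ℕ))) = (m, (a1, a2)))).card : ℝ) ≤ M := by
    intro m a1 a2
    obtain ⟨F1, hF1⟩ : ∃ F1 : Finset (ℕ × ℕ), F1 = F.filter (fun v => (mm v,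
      ((∏ p ∈ H v j, p : ℕ), (∏ p ∈ H v k, p : ℕ))) = (m, (a1, a2))) := ⟨_, rfl⟩
    rw [← hF1]
    rcases F1.eq_empty_or_nonempty with he | ⟨v0, hv0⟩
    · rw [he]
      simpa using hM0
    have prP : ∀ v s, (∏ p ∈ H v s, p : ℕ).primeFactors = H v s := fun v s =>
      Nat.primeFactors_prod (hHpr v s)
    have s1 : ∀ v ∈ F1, v ∈ F ∧ mm v = m ∧ ∀ s, s ≠ i → H v s = H v0 s := by
      intro v hv
      rw [hF1] at hv hv0
      obtain ⟨h1, h2⟩ := mem_filter.1 hv
      obtain ⟨h1', h2'⟩ := mem_filter.1 hv0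
      simp only [Prod.mk.injEq] at h2 h2'
      refine ⟨h1, h2.1, ?_⟩
      intro s hs
      rcases hs2 s hs with rfl | rfl
      · rw [← prP v, ← prP v0, h2.2.1, h2'.2.1]
      · rw [← prP v, ← prP v0, h2.2.2, h2'.2.2]
    have hv0F := (s1 v0 hv0).1
    have hδh : 0 ≤ δ * h0 := mul_nonneg hδ0.le hh0.le
    obtain ⟨K, hK⟩ : ∃ K : Finset ℕ, K = T ∪ H v0 j ∪ H v0 k := ⟨_, rfl⟩
    have mono : ∀ v ∈ F, ∀ s, (coord v s).primeFactors ⊆ (nn v).primeFactors := fun v hv s =>
      Nat.primeFactors_mono (coord_dvd_nn v s) (nn_pos (hF v hv).1).ne'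
    have hTK : T ⊆ K := by
      rw [hK]
      exact subset_union_left.trans subset_union_left
    have hHK : ∀ s, s ≠ i → H v0 s ⊆ K := by
      intro s hs
      rw [hK]
      rcases hs2 s hs with rfl | rfl
      · exact subset_union_right.trans subset_union_left
      · exact subset_union_right
    have hKnn : K ⊆ (nn v0).primeFactors := by
      rw [hK]
      refine union_subset (union_subset ?_ ?_) ?_
      · exact (hF v0 hv0F).2.2.2.2.1.trans (mono v0 hv0F i)
      · exact (hHsub v0 j).trans (mono v0 hv0F j)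
      · exact (hHsub v0 k).trans (mono v0 hv0F k)
    obtain ⟨n, cl, hn, hcl1, hcl2⟩ := hpat K h0
      (fun q hq => Nat.prime_of_mem_primeFactors (hKnn hq)) hh0
    have hn' : (n : ℝ) ≤ X ^ (ε / 32) := by
      refine hn.trans (le_trans ?_ (hsm X hXX1 v0 (hF v0 hv0F).2.1))
      refine pow_le_pow_right₀ hC ?_
      unfold om
      exact Nat.succ_le_succ (Finset.card_le_card hKnn)
    have hmI' : m < I := by
      rw [← (s1 v0 hv0).2.1]
      exact hmI v0 hv0F
    obtain ⟨q1, q2, q3, q4, q5⟩ := hf (L m) (hLp m).1 (hLp m).2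
    have hδm : δ ≤ lf (L m) := by
      rw [← hLs]
      exact hδL.trans (hLa hmI')
    have fib : ∀ r ∈ range n, (F1.filter (fun v => cl v = r)).card ≤ ⌊M2⌋₊ := by
      intro r _
      refine Nat.le_floor ?_
      obtain ⟨F2, hF2⟩ : ∃ F2 : Finset (ℕ × ℕ), F2 = F1.filter (fun v => cl v = r) := ⟨_, rfl⟩
      rw [← hF2]
      rcases F2.eq_empty_or_nonempty with he | hne
      · rw [he]
        simpa using hM20
      have s2 : ∀ v ∈ F2, v ∈ F ∧ mm v = m ∧ (∀ s, s ≠ i → H v s = H v0 s) ∧ cl v = r := by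
        intro v hv
        rw [hF2] at hv
        obtain ⟨h1, h2⟩ := mem_filter.1 hv
        exact ⟨(s1 v h1).1, (s1 v h1).2.1, (s1 v h1).2.2, h2⟩
      have cell : ∀ v ∈ F2, ∀ v' ∈ F2, ∀ s, ∀ q ∈ K,
          |((coord v s).factorization q : ℝ) - (coord v' s).factorization q| * Real.log q *
            (K.card + 1) ≤ δ * h0 := by
        intro v hv v' hv'
        refine hcl2 v v' (hF v (s2 v hv).1).1 (hF v' (s2 v' hv').1).1 (hF v (s2 v hv).1).2.2.2.1
          (hF v' (s2 v' hv').1).2.2.2.1 ?_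
        rw [(s2 v hv).2.2.2, (s2 v' hv').2.2.2]
      obtain ⟨x, hx⟩ : ∃ x : ℕ → ℕ, ∀ t, x t =
          F2.inf' hne (fun v => (coord v i).factorization t) := ⟨_, fun t => rfl⟩
      have hxle : ∀ t, ∀ v ∈ F2, x t ≤ (coord v i).factorization t := by
        intro t v hv
        rw [hx]
        exact Finset.inf'_le _ hv
      have hxat : ∀ t, ∃ v ∈ F2, x t = (coord v i).factorization t := by
        intro t
        obtain ⟨v, hv, e⟩ := Finset.exists_mem_eq_inf' hne (fun v => (coord v i).factorization t)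
        exact ⟨v, hv, by rw [hx, e]⟩
      have hTpf : ∀ v ∈ F, T ⊆ (coord v i).primeFactors := fun v hv => (hF v hv).2.2.2.2.1
      have hT : ∀ t ∈ T, t.Prime ∧ 1 ≤ x t := by
        intro t ht
        obtain ⟨v, hv, e⟩ := hxat t
        have h1 := hTpf v (s2 v hv).1 ht
        refine ⟨Nat.prime_of_mem_primeFactors h1, ?_⟩
        rw [e]
        exact (Nat.prime_of_mem_primeFactors h1).factorization_pos_of_dvd
          (coord_pos (hF v (s2 v hv).1).1 i).ne' (Nat.dvd_of_mem_primeFactors h1)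
      rw [hM2]
      refine q5 X h0 Z T x (H v0) i F2 (hXm m hmI') (hκm m hmI') hZ hT ?_ ?_ ?_ ?_
      · obtain ⟨v1, hv1⟩ := hne
        have h1 : c * h0 ≤ kl T (coord v1 i) := (hF v1 (s2 v1 hv1).1).2.2.2.2.2.1
        unfold kl at h1
        have h2 : ∑ t ∈ T, (((coord v1 i).factorization t : ℝ) - x t) * Real.log t ≤ δ * h0 := by
          refine sum_cell hTK hδh ?_
          intro t ht
          obtain ⟨v, hv, e⟩ := hxat t
          rw [e]
          refine le_trans ?_ (cell v1 hv1 v hv i t (hTK ht))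
          refine mul_le_mul_of_nonneg_right ?_ (add_nonneg (Nat.cast_nonneg _) zero_le_one)
          exact mul_le_mul_of_nonneg_right (le_abs_self _) (Real.log_natCast_nonneg t)
        have h3 : ∑ t ∈ T, (((coord v1 i).factorization t : ℝ) - x t) * Real.log t =
            ∑ t ∈ T, ((coord v1 i).factorization t : ℝ) * Real.log t -
            ∑ t ∈ T, (x t : ℝ) * Real.log t := by
          rw [← Finset.sum_sub_distrib]
          exact Finset.sum_congr rfl fun t _ => by ring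
        have h4 : δ * h0 ≤ c / 2 * h0 := mul_le_mul_of_nonneg_right hδc hh0.le
        linarith
      · intro v hv
        obtain ⟨w1, w2, w3, w4⟩ := s2 v hv
        obtain ⟨f1, f2, f3, f4, f5, f6, f7⟩ := hF v w1
        refine ⟨f1, f2, f3, f4, ?_, ?_, ?_⟩
        · intro t ht
          exact (Nat.pow_dvd_pow t (hxle t v hv)).trans (Nat.ordProj_dvd _ _)
        · intro s hs
          rw [← w3 s hs]
          exact hHsub v s
        · intro s hs p hp hpH
          rw [← w3 s hs, hH, mem_union, not_or, w2] at hpH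
          obtain ⟨g1, g2⟩ := hpH
          unfold mid at g1
          unfold big at g2
          rw [mem_filter, not_and, not_and, not_lt] at g1
          rw [mem_filter, not_and, not_lt] at g2
          have g3 := g1 hp
          have g4 := g2 hp
          rw [← hg, ← hLs]
          rcases le_or_gt ((coord v s).factorization p : ℝ) (L (m + 1) * g) with h | h
          · exact Or.inl h
          · exact Or.inr ⟨g3 h, g4⟩
      · intro v hv
        exact (hF v (s2 v hv).1).2.2.2.2.2.2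
      · intro v hv v' hv' s hs
        have h1 := sum_cell (hHK s hs) (b := δ * h0) (f := fun p =>
          |((coord v s).factorization p : ℝ) - (coord v' s).factorization p| * Real.log p)
          hδh (fun p hp => cell v hv v' hv' s p (hHK s hs hp))
        exact h1.trans (mul_le_mul_of_nonneg_right hδm hh0.le)
    have hcl : ∀ v ∈ F1, cl v ∈ range n := fun v hv => mem_range.2
      (hcl1 v (hF v (s1 v hv).1).1 (hF v (s1 v hv).1).2.2.2.1)
    have h1 := Finset.card_le_mul_card_image_of_maps_to hcl ⌊M2⌋₊ fib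
    rw [card_range] at h1
    calc (F1.card : ℝ) ≤ ((⌊M2⌋₊ * n : ℕ) : ℝ) := by exact_mod_cast h1
      _ = (⌊M2⌋₊ : ℝ) * n := by push_cast; rfl
      _ ≤ M2 * X ^ (ε / 32) := mul_le_mul (Nat.floor_le hM20) hn' (by positivity) hM20
      _ = M := hM.symm
  have hcount := Finset.card_le_mul_card_image_of_maps_to hmap ⌊M⌋₊ (fun b _ => by
    obtain ⟨m, a1, a2⟩ := b
    exact Nat.le_floor (main m a1 a2))
  rw [card_product, card_product, card_range, card_range] at hcount
  have hN2 : (N : ℝ) ≤ 2 * X ^ (3 * ε / 16) := by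
    have h1 : (1 : ℝ) ≤ X ^ (3 * ε / 16) := Real.one_le_rpow hXone (by positivity)
    rw [hN]
    push_cast
    have := Nat.floor_le (show 0 ≤ X ^ (3 * ε / 16) by positivity)
    linarith
  have hI4 : (4 * I : ℝ) ≤ X ^ (ε / 8) := by
    have h1 : ((4 * I : ℝ) ^ (8 / ε)) ^ (ε / 8) ≤ X ^ (ε / 8) :=
      Real.rpow_le_rpow (by positivity) hXI (by positivity)
    rwa [← Real.rpow_mul (by positivity), show 8 / ε * (ε / 8) = 1 by field_simp,
      Real.rpow_one] at h1
  calc (F.card : ℝ) ≤ ((⌊M⌋₊ * (I * (N * N)) : ℕ) : ℝ) := by exact_mod_cast hcount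
    _ = (⌊M⌋₊ : ℝ) * (I * (N * N)) := by push_cast; rfl
    _ ≤ M * (I * ((2 * X ^ (3 * ε / 16)) * (2 * X ^ (3 * ε / 16)))) := by
        refine mul_le_mul (Nat.floor_le hM0) ?_ (by positivity) hM0
        refine mul_le_mul_of_nonneg_left ?_ hI0.le
        exact mul_le_mul hN2 hN2 (by positivity) (by positivity)
    _ = (4 * I : ℝ) * (M2 * X ^ (ε / 32) * (X ^ (3 * ε / 16) * X ^ (3 * ε / 16))) := by
        rw [hM]; ring
    _ ≤ X ^ (ε / 8) * (M2 * X ^ (ε / 32) * (X ^ (3 * ε / 16) * X ^ (3 * ε / 16))) :=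
        mul_le_mul_of_nonneg_right hI4 (by positivity)
    _ = ((∏ t ∈ T, t : ℕ) : ℝ) * (X ^ (ε / 8) * X ^ (ε / 8) * X ^ (ε / 32) *
          (X ^ (3 * ε / 16) * X ^ (3 * ε / 16))) * Real.sqrt Z := by rw [hM2]; ring
    _ = ((∏ t ∈ T, t : ℕ) : ℝ) * X ^ (21 * ε / 32) * Real.sqrt Z := by
        rw [← Real.rpow_add hX0, ← Real.rpow_add hX0, ← Real.rpow_add hX0, ← Real.rpow_add hX0]
        congr 3
        ring
    _ ≤ ((∏ t ∈ T, t : ℕ) : ℝ) * X ^ ε * Real.sqrt Z := by
        refine mul_le_mul_of_nonneg_right ?_ (Real.sqrt_nonneg _)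
        refine mul_le_mul_of_nonneg_left ?_ (Nat.cast_nonneg _)
        exact Real.rpow_le_rpow_of_exponent_le hXone (by linarith)

end Pool.EXC
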